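import Pool.Agent.Y208.LQ.Bas

/-! Words in the swindle algebra act on forests. -/

set_option autoImplicit false

namespace Pool.Agent.Y65.LQ

open Y208.LQ

variable {F B : Type} [Field F] [Ring B] [Algebra F B] (w : SwA F B)

theorem Wd_mono (τ : List Bool) {d d' : ℕ} (h : d ≤ d') : Wd w τ d' ≤ Wd w τ d := by
  apply Submodule.span_mono
  rintro z ⟨G, h1, h2, h3, rfl⟩
  exact ⟨G, h1, fun t ht => Deep_mono' h t (h2 t ht), h.trans h3, rfl⟩

theorem mem_Wd {τ : List Bool} {d : ℕ} {G : List OT} (h1 : tyL G = τ)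
    (h2 : ∀ t ∈ G, OT.Deep d t) (h3 : d ≤ G.length) : UL w G ∈ Wd w τ d :=
  Submodule.subset_span ⟨G, h1, h2, h3, rfl⟩

/-- The property of `T` with the bound `l`. -/
def Pr (T : B) (l : ℕ) : Prop := ∀ (d : ℕ) (G : List OT), (∀ t ∈ G, OT.Deep (d + l) t) →
  d + l ≤ G.length → T * UL w G ∈ Wd w (tyL G) d

theorem Pr_mono {T : B} {l l' : ℕ} (hl : l ≤ l') (h : Pr w T l) : Pr w T l' := by
  intro d G h1 h2
  obtain ⟨k, rfl⟩ := Nat.exists_eq_add_of_le hl
  have h3 := h (d + k) G (fun t ht => by
    have := h1 t ht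
    rwa [show d + (l + k) = d + k + l by ring] at this) (by omega)
  exact Wd_mono w _ (Nat.le_add_right d k) h3

theorem Pr_algebraMap (r : F) : Pr w (algebraMap F B r) 0 := by
  intro d G h1 h2
  rw [← Algebra.smul_def]
  exact Submodule.smul_mem _ r (mem_Wd w rfl h1 h2)

theorem Pr_add {T T' : B} {l l' : ℕ} (h : Pr w T l) (h' : Pr w T' l') :
    Pr w (T + T') (max l l') := by
  intro d G h1 h2
  rw [add_mul]
  exact Submodule.add_mem _ (Pr_mono w (le_max_left l l') h d G h1 h2)
    (Pr_mono w (le_max_right l l') h' d G h1 h2)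

theorem Pr_span {T : B} {l : ℕ} (h : Pr w T l) {τ : List Bool} {d : ℕ} {z : B}
    (hz : z ∈ Wd w τ (d + l)) : T * z ∈ Wd w τ d := by
  unfold Wd at hz
  induction hz using Submodule.span_induction with
  | mem x hx =>
    obtain ⟨G, h1, h2, h3, rfl⟩ := hx
    rw [← h1]
    exact h d G h2 h3
  | zero =>
    rw [mul_zero]
    exact Submodule.zero_mem _
  | add x y _ _ hx hy =>
    rw [mul_add]
    exact Submodule.add_mem _ hx hy
  | smul a x _ hx =>
    rw [mul_smul_comm]
    exact Submodule.smul_mem _ a hx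

theorem Pr_mul {T T' : B} {l l' : ℕ} (h : Pr w T l) (h' : Pr w T' l') :
    Pr w (T * T') (l + l') := by
  intro d G h1 h2
  rw [mul_assoc]
  apply Pr_span w h
  apply h' (d + l) G
  · intro t ht
    have := h1 t ht
    rwa [← add_assoc] at this
  · omega

theorem Deep_lf (d m : ℕ) : OT.Deep d (.lf m) := by cases d <;> trivial

theorem UL_cons2 (a b : OT) (G : List OT) : UL w (a :: b :: G) =
    U w a * ph w a.h (U w b) * ph w (a.h + b.h) (UL w G) := by
  rw [UL_cons, UL_cons, map_mul, ← ph_add, mul_assoc]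

theorem Pr_e : Pr w w.e 0 := by
  intro d G h1 h2
  have h : w.e * UL w G = UL w (.lf 0 :: G) := by
    rw [UL_cons, U_lf, pow_zero, one_mul]
    rfl
  rw [h]
  apply mem_Wd w
  · rfl
  · intro t ht
    rcases List.mem_cons.1 ht with rfl | ht
    · exact Deep_lf _ _
    · exact h1 t ht
  · rw [List.length_cons]
    omega

theorem s_pow (m : ℕ) : w.s' * w.s ^ (m + 1) = q w * w.s ^ m := by
  rw [pow_succ', ← mul_assoc, s'_s]

theorem q_s_pow_q (m : ℕ) : q w * w.s ^ m * q w = w.s ^ m * q w := by
  cases m with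
  | zero => rw [pow_zero, mul_one, one_mul, q_q]
  | succ m => rw [pow_succ', ← mul_assoc, q_s]

theorem q_s_pow_e (m : ℕ) : q w * w.s ^ m * w.e = w.s ^ m * w.e := by
  cases m with
  | zero => rw [pow_zero, mul_one, one_mul, q_e]
  | succ m => rw [pow_succ', ← mul_assoc, q_s]

/-- a letter acts through the first tree -/
theorem Pr_first {T : B} (h : ∀ (d : ℕ) (t : OT) (G : List OT), OT.Deep (d + 1) t →
    (∀ t ∈ G, OT.Deep (d + 1) t) → d ≤ G.length →
    T * (U w t * ph w t.h (UL w G)) ∈ Wd w (t.ty ++ tyL G) d) : Pr w T 1 := by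
  intro d G h1 h2
  cases G with
  | nil => simp at h2
  | cons t G =>
    rw [UL_cons, tyL_cons]
    apply h d t G (h1 t (List.mem_cons_self)) (fun t' ht' => h1 t' (List.mem_cons_of_mem _ ht'))
    rw [List.length_cons] at h2
    omega

theorem zero_case {T x y : B} {V : Submodule F B} (h : T * x = 0) : T * (x * y) ∈ V := by
  rw [← mul_assoc, h, zero_mul]
  exact Submodule.zero_mem _

theorem Pr_e' : Pr w w.e' 1 := by
  apply Pr_first
  intro d t G h1 h2 h3
  cases t with
  | hole => exact h1.elim
  | nu m =>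
    have hm : d + 1 ≤ m := h1
    obtain ⟨k, rfl⟩ : ∃ k, m = k + 1 := ⟨m - 1, by omega⟩
    apply zero_case
    rw [U_nu, pow_succ', ← mul_assoc, ← mul_assoc, w.es, zero_mul, zero_mul]
  | lf m =>
    cases m with
    | zero =>
      have h : w.e' * (U w (.lf 0) * ph w (OT.lf 0).h (UL w G)) = UL w G := by
        rw [U_lf, pow_zero, one_mul, ← mul_assoc, w.ee, one_mul]
        rfl
      rw [h]
      exact mem_Wd w rfl (fun t ht => Deep_mono _ _ (h2 t ht)) h3
    | succ k =>
      apply zero_case
      rw [U_lf, pow_succ', ← mul_assoc, ← mul_assoc, w.es, zero_mul, zero_mul]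
  | node l r =>
    apply zero_case
    rw [U_node, ← mul_assoc, ← mul_assoc, w.en, zero_mul, zero_mul]

theorem Pr_s : Pr w w.s 1 := by
  apply Pr_first
  intro d t G h1 h2 h3
  cases t with
  | hole => exact h1.elim
  | nu m =>
    have hm : d + 1 ≤ m := h1
    have h : w.s * (U w (.nu m) * ph w (OT.nu m).h (UL w G)) = UL w (.nu (m + 1) :: G) := by
      rw [UL_cons, ← mul_assoc, U_nu, U_nu, ← mul_assoc, ← pow_succ']
      rfl
    rw [h]
    apply mem_Wd w
    · rfl
    · intro t ht
      rcases List.mem_cons.1 ht with rfl | ht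
      · apply Deep_mono
        change d + 1 ≤ m + 1
        omega
      · exact Deep_mono _ _ (h2 t ht)
    · rw [List.length_cons]
      omega
  | lf m =>
    have h : w.s * (U w (.lf m) * ph w (OT.lf m).h (UL w G)) = UL w (.lf (m + 1) :: G) := by
      rw [UL_cons, ← mul_assoc, U_lf, U_lf, ← mul_assoc, ← pow_succ']
      rfl
    rw [h]
    apply mem_Wd w
    · rfl
    · intro t ht
      rcases List.mem_cons.1 ht with rfl | ht
      · exact Deep_lf _ _
      · exact Deep_mono _ _ (h2 t ht)
    · rw [List.length_cons]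
      omega
  | node l r =>
    apply zero_case
    rw [U_node, ← mul_assoc, ← mul_assoc, w.sn, zero_mul, zero_mul]

theorem Pr_s' : Pr w w.s' 1 := by
  apply Pr_first
  intro d t G h1 h2 h3
  cases t with
  | hole => exact h1.elim
  | nu m =>
    have hm : d + 1 ≤ m := h1
    obtain ⟨k, rfl⟩ : ∃ k, m = k + 1 := ⟨m - 1, by omega⟩
    have h : w.s' * (U w (.nu (k + 1)) * ph w (OT.nu (k + 1)).h (UL w G)) =
        UL w (.nu k :: G) := by
      rw [UL_cons, ← mul_assoc, U_nu, U_nu, ← mul_assoc, s_pow, q_s_pow_q]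
      rfl
    rw [h]
    apply mem_Wd w
    · rfl
    · intro t ht
      rcases List.mem_cons.1 ht with rfl | ht
      · cases d with
        | zero => trivial
        | succ d =>
          change d + 1 ≤ k
          omega
      · exact Deep_mono _ _ (h2 t ht)
    · rw [List.length_cons]
      omega
  | lf m =>
    cases m with
    | zero =>
      apply zero_case
      rw [U_lf, pow_zero, one_mul, w.se]
    | succ k =>
      have h : w.s' * (U w (.lf (k + 1)) * ph w (OT.lf (k + 1)).h (UL w G)) =
          UL w (.lf k :: G) := by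
        rw [UL_cons, ← mul_assoc, U_lf, U_lf, ← mul_assoc, s_pow, q_s_pow_e]
        rfl
      rw [h]
      apply mem_Wd w
      · rfl
      · intro t ht
        rcases List.mem_cons.1 ht with rfl | ht
        · exact Deep_lf _ _
        · exact Deep_mono _ _ (h2 t ht)
      · rw [List.length_cons]
        omega
  | node l r =>
    apply zero_case
    rw [U_node, ← mul_assoc, ← mul_assoc, w.sn', zero_mul, zero_mul]

theorem Pr_n' : Pr w w.n' 1 := by
  apply Pr_first
  intro d t G h1 h2 h3
  cases t with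
  | hole => exact h1.elim
  | nu m =>
    have hm : d + 1 ≤ m := h1
    obtain ⟨k, rfl⟩ : ∃ k, m = k + 1 := ⟨m - 1, by omega⟩
    apply zero_case
    rw [U_nu, pow_succ', ← mul_assoc, ← mul_assoc, w.ns, zero_mul, zero_mul]
  | lf m =>
    apply zero_case
    cases m with
    | zero => rw [U_lf, pow_zero, one_mul, w.ne]
    | succ k => rw [U_lf, pow_succ', ← mul_assoc, ← mul_assoc, w.ns, zero_mul, zero_mul]
  | node l r =>
    have h : w.n' * (U w (.node l r) * ph w (OT.node l r).h (UL w G)) = UL w (l :: r :: G) := by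
      rw [UL_cons2, U_node]
      change w.n' * (w.n * U w l * ph w l.h (U w r) * ph w (l.h + r.h) (UL w G)) = _
      simp only [← mul_assoc]
      rw [w.nn, one_mul]
    rw [h]
    apply mem_Wd w
    · rw [tyL_cons, tyL_cons, ← List.append_assoc]
      rfl
    · intro t ht
      rcases List.mem_cons.1 ht with rfl | ht
      · exact h1.1
      · rcases List.mem_cons.1 ht with rfl | ht
        · exact h1.2
        · exact Deep_mono _ _ (h2 t ht)
    · rw [List.length_cons, List.length_cons]
      omega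

theorem Pr_n : Pr w w.n 2 := by
  intro d G h1 h2
  match G with
  | [] => simp at h2
  | [a] =>
    rw [List.length_singleton] at h2
    omega
  | a :: b :: G =>
    have h : w.n * UL w (a :: b :: G) = UL w (.node a b :: G) := by
      rw [UL_cons2, UL_cons, U_node]
      change _ = w.n * U w a * ph w a.h (U w b) * ph w (a.h + b.h) (UL w G)
      simp only [← mul_assoc]
    rw [h]
    apply mem_Wd w
    · rw [tyL_cons, tyL_cons, tyL_cons, ← List.append_assoc]
      rfl
    · intro t ht
      rcases List.mem_cons.1 ht with rfl | ht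
      · cases d with
        | zero => trivial
        | succ d =>
          exact ⟨Deep_mono' (by omega) _ (h1 a (by simp)), Deep_mono' (by omega) _ (h1 b (by simp))⟩
      · exact Deep_mono' (by omega) _ (h1 t (by simp [ht]))
    · simp only [List.length_cons] at h2 ⊢
      omega

theorem Pr_φ {T : B} {l : ℕ} (h : Pr w T l) : Pr w (w.φ T) (l + 1) := by
  intro d G h1 h2
  cases G with
  | nil => simp at h2
  | cons t G =>
    rw [UL_cons, tyL_cons, ← mul_assoc, φ_U, mul_assoc, ← map_mul]
    have h3 : T * UL w G ∈ Wd w (tyL G) d := by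
      apply h d G
      · intro t' ht'
        exact Deep_mono _ _ (h1 t' (List.mem_cons_of_mem _ ht'))
      · rw [List.length_cons] at h2
        omega
    generalize T * UL w G = z at h3
    unfold Wd at h3
    induction h3 using Submodule.span_induction with
    | mem x hx =>
      obtain ⟨G', e1, e2, e3, rfl⟩ := hx
      rw [← UL_cons, ← e1]
      apply mem_Wd w
      · rfl
      · intro t' ht'
        rcases List.mem_cons.1 ht' with rfl | ht'
        · exact Deep_mono' (by omega) _ (h1 _ (List.mem_cons_self))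
        · exact e2 t' ht'
      · rw [List.length_cons]
        omega
    | zero =>
      rw [map_zero, mul_zero]
      exact Submodule.zero_mem _
    | add x y _ _ hx hy =>
      rw [map_add, mul_add]
      exact Submodule.add_mem _ hx hy
    | smul a x _ hx =>
      rw [map_smul, mul_smul_comm]
      exact Submodule.smul_mem _ a hx

theorem t_ACT : S_ACT := by
  intro F B _ _ _ w T
  change ∃ l, Pr w T l
  have hT : T ∈ Algebra.adjoin F (({w.e, w.e', w.s, w.s', w.n, w.n'} : Set B) ∪
      w.φ '' {w.e, w.e', w.s, w.s', w.n, w.n'}) := by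
    rw [w.gen]
    exact Algebra.mem_top
  have hl : ∀ x ∈ ({w.e, w.e', w.s, w.s', w.n, w.n'} : Set B), ∃ l, Pr w x l := by
    rintro x (rfl | rfl | rfl | rfl | rfl | rfl)
    · exact ⟨_, Pr_e w⟩
    · exact ⟨_, Pr_e' w⟩
    · exact ⟨_, Pr_s w⟩
    · exact ⟨_, Pr_s' w⟩
    · exact ⟨_, Pr_n w⟩
    · exact ⟨_, Pr_n' w⟩
  induction hT using Algebra.adjoin_induction with
  | mem x hx =>
    rcases hx with hx | ⟨y, hy, rfl⟩
    · exact hl x hx
    · obtain ⟨l, h⟩ := hl y hy
      exact ⟨_, Pr_φ w h⟩
  | algebraMap r => exact ⟨_, Pr_algebraMap w r⟩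
  | add x y _ _ hx hy =>
    obtain ⟨l, h⟩ := hx
    obtain ⟨l', h'⟩ := hy
    exact ⟨_, Pr_add w h h'⟩
  | mul x y _ _ hx hy =>
    obtain ⟨l, h⟩ := hx
    obtain ⟨l', h'⟩ := hy
    exact ⟨_, Pr_mul w h h'⟩

end Pool.Agent.Y65.LQ
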