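import Pool.Agent.Y208.LQ.Bas

/-! Closed trees. -/

set_option autoImplicit false

namespace Pool.Agent.Y65.LQ

open Y208.LQ

section alg

variable {F B : Type} [Field F] [Ring B] [Algebra F B] (w : SwA F B)

theorem s'_s_pow_e (m : ℕ) : w.s' * (w.s ^ (m + 1) * w.e) = w.s ^ m * w.e := by
  rw [pow_succ', mul_assoc, ← mul_assoc, s'_s]
  cases m with
  | zero => rw [pow_zero, one_mul, q_e]
  | succ m => rw [pow_succ', ← mul_assoc, ← mul_assoc, q_s]

theorem leaf_leaf (m m' : ℕ) : w.e' * w.s' ^ m * (w.s ^ m' * w.e) = if m = m' then 1 else 0 := by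
  induction m generalizing m' with
  | zero =>
    rw [pow_zero, mul_one]
    cases m' with
    | zero => rw [pow_zero, one_mul, w.ee, if_pos rfl]
    | succ k =>
      rw [pow_succ', ← mul_assoc, ← mul_assoc, w.es, zero_mul, zero_mul, if_neg (by omega)]
  | succ m ih =>
    rw [pow_succ, mul_assoc, mul_assoc]
    cases m' with
    | zero =>
      rw [pow_zero, one_mul, w.se, mul_zero, mul_zero, if_neg (by omega)]
    | succ k =>
      rw [s'_s_pow_e, ← mul_assoc, ih]
      by_cases h : m = k
      · rw [if_pos h, if_pos (by omega)]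
      · rw [if_neg h, if_neg (by omega)]

theorem leaf_node (m : ℕ) : w.e' * w.s' ^ m * w.n = 0 := by
  cases m with
  | zero => rw [pow_zero, mul_one, w.en]
  | succ m => rw [pow_succ, mul_assoc, mul_assoc, w.sn', mul_zero, mul_zero]

theorem node_leaf (m : ℕ) : w.n' * (w.s ^ m * w.e) = 0 := by
  cases m with
  | zero => rw [pow_zero, one_mul, w.ne]
  | succ m => rw [pow_succ', ← mul_assoc, ← mul_assoc, w.ns, zero_mul, zero_mul]

theorem closed_mul (t : OT) : ∀ t' : OT, t.h = 0 → t'.h = 0 →
    U' w t * U w t' = if t = t' then 1 else 0 := by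
  induction t with
  | hole => intro t' h; simp [OT.h] at h
  | nu m => intro t' h; simp [OT.h] at h
  | lf m =>
    intro t' _ h'
    cases t' with
    | hole => simp [OT.h] at h'
    | nu m => simp [OT.h] at h'
    | lf m' =>
      change w.e' * w.s' ^ m * (w.s ^ m' * w.e) = _
      rw [leaf_leaf]
      by_cases h : m = m'
      · rw [if_pos h, if_pos (by rw [h])]
      · rw [if_neg h, if_neg (fun h1 => h (OT.lf.inj h1))]
    | node l r =>
      change w.e' * w.s' ^ m * (w.n * U w l * ph w l.h (U w r)) = _
      rw [if_neg (by simp), ← mul_assoc, ← mul_assoc, leaf_node, zero_mul, zero_mul]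
  | node l r ihl ihr =>
    intro t' h h'
    have hl : l.h = 0 := by simp only [OT.h] at h; omega
    have hr : r.h = 0 := by simp only [OT.h] at h; omega
    cases t' with
    | hole => simp [OT.h] at h'
    | nu m => simp [OT.h] at h'
    | lf m =>
      change U' w r * U' w l * w.n' * (w.s ^ m * w.e) = _
      rw [mul_assoc, node_leaf, mul_zero, if_neg (by simp)]
    | node l' r' =>
      have hl' : l'.h = 0 := by simp only [OT.h] at h'; omega
      have hr' : r'.h = 0 := by simp only [OT.h] at h'; omega
      change U' w r * U' w l * w.n' * (w.n * U w l' * ph w l'.h (U w r')) = _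
      rw [hl', ph_zero]
      have e : U' w r * U' w l * w.n' * (w.n * U w l' * U w r') =
          U' w r * ((U' w l * U w l') * U w r') := by
        have e1 : U' w r * U' w l * w.n' * (w.n * U w l' * U w r') =
          U' w r * U' w l * (w.n' * w.n) * U w l' * U w r' := by simp only [mul_assoc]
        rw [e1, w.nn, mul_one]
        simp only [mul_assoc]
      rw [e, ihl l' hl hl']
      by_cases h1 : l = l'
      · rw [if_pos h1, one_mul, ihr r' hr hr']
        by_cases h2 : r = r'
        · rw [if_pos h2, if_pos (by rw [h1, h2])]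
        · rw [if_neg h2, if_neg (fun h3 => h2 (OT.node.inj h3).2)]
      · rw [if_neg h1, zero_mul, mul_zero, if_neg (fun h3 => h1 (OT.node.inj h3).1)]

theorem ph_lf_pow (M k : ℕ) (X : B) :
    ph w k X * U w (.lf M) ^ k = U w (.lf M) ^ k * X := by
  induction k with
  | zero => rw [pow_zero, mul_one, one_mul, ph_zero]
  | succ k ih =>
    have h : w.φ (ph w k X) * U w (.lf M) = U w (.lf M) * ph w k X := φ_U w (.lf M) _
    rw [ph_succ, pow_succ', ← mul_assoc, h, mul_assoc, ih, ← mul_assoc]

theorem fill_h (M : ℕ) (t : OT) : (t.fill M).h = 0 := by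
  induction t with
  | hole => rfl
  | nu m => rfl
  | lf m => rfl
  | node l r ihl ihr =>
    change (l.fill M).h + (r.fill M).h = 0
    rw [ihl, ihr]

theorem U_fill (M : ℕ) (t : OT) : U w t * U w (.lf M) ^ t.h = U w (t.fill M) := by
  induction t with
  | hole =>
    change 1 * U w (.lf M) ^ 1 = U w (.lf M)
    rw [one_mul, pow_one]
  | nu m =>
    change w.s ^ m * q w * (w.s ^ M * w.e) ^ 1 = w.s ^ (m + M) * w.e
    rw [pow_one, mul_assoc, pow_add, mul_assoc]
    congr 1
    cases M with
    | zero => rw [pow_zero, one_mul, q_e]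
    | succ M => rw [pow_succ', ← mul_assoc, ← mul_assoc, q_s]
  | lf m =>
    change w.s ^ m * w.e * _ ^ 0 = w.s ^ m * w.e
    rw [pow_zero, mul_one]
  | node l r ihl ihr =>
    change w.n * U w l * ph w l.h (U w r) * U w (.lf M) ^ (l.h + r.h) =
      w.n * U w (l.fill M) * ph w (l.fill M).h (U w (r.fill M))
    rw [fill_h, ph_zero, ← ihl, ← ihr, pow_add]
    have e : w.n * U w l * ph w l.h (U w r) * (U w (.lf M) ^ l.h * U w (.lf M) ^ r.h) =
        w.n * U w l * (ph w l.h (U w r) * U w (.lf M) ^ l.h) * U w (.lf M) ^ r.h := by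
      simp only [mul_assoc]
    rw [e, ph_lf_pow]
    simp only [mul_assoc]

theorem UL_fill (M : ℕ) (G : List OT) :
    UL w G * U w (.lf M) ^ (tyL G).length = ((G.map (OT.fill M)).map (U w)).prod := by
  induction G with
  | nil =>
    change 1 * _ ^ 0 = 1
    rw [pow_zero, mul_one]
  | cons t G ih =>
    rw [UL_cons, tyL_cons, List.length_append, ty_length, List.map_cons, List.map_cons,
      List.prod_cons, ← ih, ← U_fill, pow_add]
    have e : U w t * ph w t.h (UL w G) * (U w (.lf M) ^ t.h * U w (.lf M) ^ (tyL G).length) =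
        U w t * (ph w t.h (UL w G) * U w (.lf M) ^ t.h) * U w (.lf M) ^ (tyL G).length := by
      simp only [mul_assoc]
    rw [e, ph_lf_pow]
    simp only [mul_assoc]

end alg

theorem fill_inj (M : ℕ) (t : OT) : ∀ t' : OT, OT.Lt M t → OT.Lt M t' →
    t.fill M = t'.fill M → t.h = t'.h ∧ (t.ty = t'.ty → t = t') := by
  induction t with
  | hole =>
    intro t' _ h' h
    cases t' with
    | hole => exact ⟨rfl, fun _ => rfl⟩
    | nu m => exact ⟨rfl, fun h => by simp [OT.ty] at h⟩
    | lf m =>
      have h1 : m < M := h'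
      have h2 : M = m := OT.lf.inj h
      omega
    | node l r => simp [OT.fill] at h
  | nu m =>
    intro t' _ h' h
    cases t' with
    | hole => exact ⟨rfl, fun h => by simp [OT.ty] at h⟩
    | nu m' =>
      refine ⟨rfl, fun _ => ?_⟩
      have h2 : m + M = m' + M := OT.lf.inj h
      congr 1
      omega
    | lf m' =>
      have h1 : m' < M := h'
      have h2 : m + M = m' := OT.lf.inj h
      omega
    | node l r => simp [OT.fill] at h
  | lf m =>
    intro t' h0 h' h
    cases t' with
    | hole =>
      have h1 : m < M := h0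
      have h2 : m = M := OT.lf.inj h
      omega
    | nu m' =>
      have h1 : m < M := h0
      have h2 : m = m' + M := OT.lf.inj h
      omega
    | lf m' => exact ⟨rfl, fun _ => h⟩
    | node l r => simp [OT.fill] at h
  | node l r ihl ihr =>
    intro t' h0 h' h
    cases t' with
    | hole => simp [OT.fill] at h
    | nu m => simp [OT.fill] at h
    | lf m => simp [OT.fill] at h
    | node l' r' =>
      have h1 := OT.node.inj h
      obtain ⟨a1, a2⟩ := ihl l' h0.1 h'.1 h1.1
      obtain ⟨b1, b2⟩ := ihr r' h0.2 h'.2 h1.2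
      refine ⟨?_, fun h2 => ?_⟩
      · change l.h + r.h = l'.h + r'.h
        rw [a1, b1]
      · have h3 : l.ty ++ r.ty = l'.ty ++ r'.ty := h2
        obtain ⟨c1, c2⟩ := List.append_inj h3 (by rw [ty_length, ty_length, a1])
        rw [a2 c1, b2 c2]

theorem fill_inj_list (M : ℕ) (G : List OT) : ∀ G' : List OT, (∀ t ∈ G, OT.Lt M t) →
    (∀ t ∈ G', OT.Lt M t) → tyL G = tyL G' → G.map (OT.fill M) = G'.map (OT.fill M) →
    G = G' := by
  induction G with
  | nil =>
    intro G' _ _ _ h
    cases G' with
    | nil => rfl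
    | cons t G' => simp at h
  | cons t G ih =>
    intro G' h1 h2 h3 h
    cases G' with
    | nil => simp at h
    | cons t' G' =>
      rw [List.map_cons, List.map_cons] at h
      obtain ⟨e1, e2⟩ := List.cons.inj h
      obtain ⟨a1, a2⟩ := fill_inj M t t' (h1 t (List.mem_cons_self)) (h2 t' (List.mem_cons_self)) e1
      rw [tyL_cons, tyL_cons] at h3
      obtain ⟨c1, c2⟩ := List.append_inj h3 (by rw [ty_length, ty_length, a1])
      rw [a2 c1, ih G' (fun t ht => h1 t (List.mem_cons_of_mem _ ht))
        (fun t ht => h2 t (List.mem_cons_of_mem _ ht)) c2 e2]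

theorem t_CLO : S_CLO := by
  intro F B _ _ _ w
  exact ⟨fun t t' => closed_mul w t t', UL_fill w, fill_inj_list⟩

end Pool.Agent.Y65.LQ
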