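import Pool.Agent.Y208.LQ.Bas

/-! Deep forests detect nonzero elements. -/

set_option autoImplicit false

namespace Pool.Agent.Y65.LQ

open Y208.LQ

variable {F B : Type} [Field F] [Ring B] [Algebra F B] (w : SwA F B)

theorem s_pow_q (M : ℕ) : w.s ^ (M + 1) * q w = w.s ^ (M + 1) := by
  rw [pow_succ, mul_assoc, s_q]

theorem s_pow_split (M : ℕ) : w.s ^ (M + 1) =
    w.s ^ (M + 1) * w.e * w.e' + w.s ^ (M + 2) * w.s' := by
  conv_lhs => rw [← s_pow_q]
  unfold q
  rw [mul_add, pow_succ w.s (M + 1)]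
  simp only [mul_assoc]

theorem s_claim {j : ℕ} {T : B} {M : ℕ} (h : T * ph w j (w.s ^ (M + 1)) ≠ 0) (N : ℕ)
    (hN : M ≤ N) : (∃ m, T * ph w j (w.s ^ m * w.e) ≠ 0) ∨ T * ph w j (w.s ^ (N + 1)) ≠ 0 := by
  by_cases hc : ∃ m, T * ph w j (w.s ^ m * w.e) ≠ 0
  · exact Or.inl hc
  · right
    push Not at hc
    induction hN with
    | refl => exact h
    | @step N _ ih =>
      intro h0
      apply ih
      rw [s_pow_split, map_add, map_mul, map_mul _ (w.s ^ (N + 2)), mul_add, ← mul_assoc,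
        hc, zero_mul, zero_add, ← mul_assoc, h0, zero_mul]

theorem exists_tree (d : ℕ) : ∀ (j : ℕ) (T : B), T ≠ 0 →
    ∃ t, OT.Deep d t ∧ T * ph w j (U w t) ≠ 0 := by
  induction d with
  | zero =>
    intro j T hT
    refine ⟨.hole, trivial, ?_⟩
    rw [U_hole, map_one, mul_one]
    exact hT
  | succ d ih =>
    intro j T hT
    by_cases he : T * ph w j w.e = 0
    · by_cases hn : T * ph w j w.n = 0
      · have hs : T * ph w j (w.s ^ (0 + 1)) ≠ 0 := by
          rw [zero_add, pow_one]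
          intro hs
          apply hT
          have h1 : T = T * ph w j (w.e * w.e' + w.s * w.s' + w.n * w.n') := by
            rw [w.one, map_one, mul_one]
          rw [h1, map_add, map_add, map_mul, map_mul, map_mul, mul_add, mul_add, ← mul_assoc,
            ← mul_assoc, ← mul_assoc, he, hs, hn, zero_mul, zero_mul, zero_mul, add_zero, add_zero]
        rcases s_claim w hs d (Nat.zero_le _) with ⟨m, hm⟩ | h
        · exact ⟨.lf m, trivial, hm⟩
        · refine ⟨.nu (d + 1), ?_, ?_⟩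
          · change d + 1 ≤ d + 1
            exact le_rfl
          · rw [U_nu, s_pow_q]
            exact h
      · obtain ⟨l, hl1, hl2⟩ := ih j _ hn
        obtain ⟨r, hr1, hr2⟩ := ih (j + l.h) _ hl2
        refine ⟨.node l r, ⟨hl1, hr1⟩, ?_⟩
        rw [U_node, map_mul, map_mul, ← ph_add, ← mul_assoc, ← mul_assoc]
        exact hr2
    · refine ⟨.lf 0, trivial, ?_⟩
      rw [U_lf, pow_zero, one_mul]
      exact he

theorem exists_forest (d K : ℕ) : ∀ (j : ℕ) (T : B), T ≠ 0 →
    ∃ G : List OT, (∀ t ∈ G, OT.Deep d t) ∧ G.length = K ∧ T * ph w j (UL w G) ≠ 0 := by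
  induction K with
  | zero =>
    intro j T hT
    refine ⟨[], by simp, rfl, ?_⟩
    rw [UL_nil, map_one, mul_one]
    exact hT
  | succ K ih =>
    intro j T hT
    obtain ⟨t, ht1, ht2⟩ := exists_tree w d j T hT
    obtain ⟨G, h1, h2, h3⟩ := ih (j + t.h) _ ht2
    refine ⟨t :: G, ?_, ?_, ?_⟩
    · intro t' ht'
      rcases List.mem_cons.1 ht' with rfl | ht'
      · exact ht1
      · exact h1 t' ht'
    · rw [List.length_cons, h2]
    · rw [UL_cons, map_mul, ← ph_add, ← mul_assoc]
      exact h3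

theorem t_DEEP : S_DEEP := by
  intro F B _ _ _ w T hT d K
  obtain ⟨G, h1, h2, h3⟩ := exists_forest w d K 0 T hT
  exact ⟨G, h1, h2, h3⟩

end Pool.Agent.Y65.LQ
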